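import Pool.Agent.H24.WN.Lp

/-!
# The density of the continuous part as a measurable function of the component (MP_c59857_nt)
-/

set_option autoImplicit false

open MeasureTheory ProbabilityTheory Filter Topology Finset
open scoped ENNReal

namespace Pool.Agent.H24.WN

open Pool.Agent.H89.MT (I1 X)
open Pool.Agent.H83.W (S S_cont)
open Pool.Agent.H24.EG
open Pool.Agent.H6.N4D (ee norm_ee ee_add)

/-- an almost periodic function with nonnegative coefficients is almost maximal at some `h ≥ 1` -/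
theorem mass (b θ : ℕ → ℝ) (hb0 : ∀ j, 0 ≤ b j) (hb : Summable b) {ε : ℝ} (hε : 0 < ε) :
    ∃ h : ℕ, 1 ≤ h ∧ ∑' j, b j - ε < ∑' j, b j * Real.cos (2 * Real.pi * θ j * h) := by
  let x : ℕ → Circle := fun j => Circle.exp (2 * Real.pi * θ j)
  let Φ : (ℕ → Circle) → ℝ := fun z => ∑' j, b j * ((z j : Circle) : ℂ).re
  have hΦ : Continuous Φ := by
    refine continuous_tsum (fun j => ?_) hb fun j z => ?_
    · exact continuous_const.mul (Complex.continuous_re.comp
        (continuous_subtype_val.comp (continuous_apply j)))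
    · rw [norm_mul, Real.norm_eq_abs, Real.norm_eq_abs, abs_of_nonneg (hb0 j)]
      refine mul_le_of_le_one_right (hb0 j) ?_
      refine (Complex.abs_re_le_norm _).trans ?_
      rw [Circle.norm_coe]
  have h1 : MapClusterPt 1 atTop (x ^ · : ℕ → (ℕ → Circle)) := mapClusterPt_one_atTop_pow x
  have h2 : Φ 1 = ∑' j, b j := by
    show ∑' j, b j * (((1 : ℕ → Circle) j : Circle) : ℂ).re = _
    simp
  have h3 : ∀ᶠ z in 𝓝 (1 : ℕ → Circle), ∑' j, b j - ε < Φ z := by
    have := (hΦ.tendsto 1).eventually (lt_mem_nhds (show ∑' j, b j - ε < Φ 1 by linarith))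
    exact this
  have h4 : ∃ᶠ n in atTop, ∑' j, b j - ε < Φ (x ^ n) := h1.frequently h3
  obtain ⟨n, hn, h5⟩ := (h4.and_eventually (eventually_ge_atTop 1)).exists
  refine ⟨n, h5, hn.trans_le (le_of_eq ?_)⟩
  refine tsum_congr fun j => ?_
  congr 1
  show (((x ^ n) j : Circle) : ℂ).re = _
  rw [Pi.pow_apply, Circle.coe_pow]
  show (((Circle.exp (2 * Real.pi * θ j) : Circle) : ℂ) ^ n).re = _
  rw [Circle.coe_exp, ← Complex.exp_nat_mul]
  have h6 : (n : ℂ) * (((2 * Real.pi * θ j : ℝ) : ℂ) * Complex.I) =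
      ((2 * Real.pi * θ j * n : ℝ) : ℂ) * Complex.I := by
    push_cast
    ring
  rw [h6, Complex.exp_ofReal_mul_I_re]

theorem cos_le (b θ : ℕ → ℝ) (hb0 : ∀ j, 0 ≤ b j) (hb : Summable b) (h : ℕ) :
    ∑' j, b j * Real.cos (2 * Real.pi * θ j * h) ≤ ∑' j, b j := by
  have h1 : ∀ j, |b j * Real.cos (2 * Real.pi * θ j * h)| ≤ b j := fun j => by
    rw [abs_mul, abs_of_nonneg (hb0 j)]
    exact mul_le_of_le_one_right (hb0 j) (Real.abs_cos_le_one _)
  exact (Summable.of_abs (Summable.of_nonneg_of_le (fun _ => abs_nonneg _) h1 hb)).tsum_le_tsum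
    (fun j => (le_abs_self _).trans (h1 j)) hb

section

variable (κ : Measure X) [IsProbabilityMeasure κ]

/-- the correlations of the component -/
noncomputable def rc (h : ℕ) (x : X) : ℝ := ∫ y, (y 0 : ℝ) * (y (h : ℤ) : ℝ) ∂comp κ x

theorem c0r (m : ℤ) : Measurable fun y : X => (y m : ℝ) :=
  measurable_subtype_coe.comp (measurable_pi_apply m)

theorem rc_meas (h : ℕ) : Measurable (rc κ h) := by
  have h1 : Measurable fun y : X => (y 0 : ℝ) * (y (h : ℤ) : ℝ) := (c0r 0).mul (c0r h)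
  have h3 := StronglyMeasurable.integral_condExpKernel (μ := κ) (m := IS) h1.stronglyMeasurable
  exact (h3.mono IS_le).measurable

theorem rc_abs (h : ℕ) (x : X) : |rc κ h x| ≤ 1 := by
  have hP : IsProbabilityMeasure (comp κ x) := by unfold comp; infer_instance
  unfold rc
  have h1 := norm_integral_le_of_norm_le_const (μ := comp κ x)
    (f := fun y => (y 0 : ℝ) * (y (h : ℤ) : ℝ)) (C := 1) (Eventually.of_forall fun y => by
      rw [norm_mul, Real.norm_eq_abs, Real.norm_eq_abs]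
      exact mul_le_one₀ (abs_le_one y 0) (abs_nonneg _) (abs_le_one y h))
  simpa using h1

theorem rc_bdd (x : X) : BddAbove (Set.range fun h : ℕ => rc κ (h + 1) x) :=
  ⟨1, by rintro _ ⟨h, rfl⟩; exact (abs_le.1 (rc_abs κ _ x)).2⟩

/-- the density of the continuous part, cut off at `0` and `1` -/
noncomputable def W (x : X) : ℝ := max 0 (min 1 (rc κ 0 x - ⨆ h : ℕ, rc κ (h + 1) x))

theorem W_meas : Measurable (W κ) := by
  have h1 : Measurable fun x => ⨆ h : ℕ, rc κ (h + 1) x :=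
    Measurable.iSup fun h => rc_meas κ (h + 1)
  exact measurable_const.max (measurable_const.min ((rc_meas κ 0).sub h1))

theorem W_mem (x : X) : 0 ≤ W κ x ∧ W κ x ≤ 1 :=
  ⟨le_max_left _ _, max_le zero_le_one (min_le_left _ _)⟩

/-- the cut off density is the density -/
theorem W_eq {x : X} {w : ℝ} (h0 : 0 ≤ w) (hw : Spec (comp κ x) w) : W κ x = w := by
  obtain ⟨b, θ, hb0, hb, hn, h⟩ := hw
  have hP : IsProbabilityMeasure (comp κ x) := by unfold comp; infer_instance
  have e0 : rc κ 0 x = ∑' j, b j + w := by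
    rw [← hn]
    unfold rc
    refine integral_congr_ae (Eventually.of_forall fun y => ?_)
    show (y 0 : ℝ) * (y ((0 : ℕ) : ℤ) : ℝ) = (y 0 : ℝ) ^ 2
    rw [Nat.cast_zero]
    ring
  have e1 : ⨆ h : ℕ, rc κ (h + 1) x = ∑' j, b j := by
    apply le_antisymm
    · refine ciSup_le fun m => ?_
      unfold rc
      rw [h (m + 1) (Nat.succ_pos m)]
      exact cos_le b θ hb0 hb (m + 1)
    · refine le_of_forall_pos_lt_add fun ε hε => ?_
      obtain ⟨m, hm, hlt⟩ := mass b θ hb0 hb hε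
      rw [← h m hm] at hlt
      have h2 := le_ciSup (rc_bdd κ x) (m - 1)
      simp only [Nat.sub_add_cancel hm] at h2
      unfold rc at h2 ⊢
      linarith
  have e2 : w ≤ 1 := by
    have h1 := (abs_le.1 (rc_abs κ 0 x)).2
    have h2 : 0 ≤ ∑' j, b j := tsum_nonneg hb0
    linarith
  unfold W
  rw [e0, e1, add_sub_cancel_left, min_eq_right e2, max_eq_right h0]

/-- **White noise, final form.** -/
theorem white (hS : MeasurePreserving S κ κ)
    (h0 : ∀ᵐ x ∂κ, ∀ hS : MeasurePreserving S (comp κ x) (comp κ x),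
      have : IsProbabilityMeasure (comp κ x) := by unfold comp; infer_instance
      ∀ h : ℕ, 1 ≤ h →
      (inner ℂ (cp (Uc hS) (y0 (comp κ x))) ((Uc hS)^[h] (cp (Uc hS) (y0 (comp κ x))))).re = 0) :
    (∀ᵐ x ∂κ, Spec (comp κ x) (W κ x)) ∧
    ∀ (c : ℝ) (G : X → ℝ), Measurable G → (∀ x, 0 ≤ G x ∧ G x ≤ 1) → c ≤ ∫ x, G x ∂κ →
      (∀ᵐ x ∂κ, Far (comp κ x) (G x)) → c ≤ ∫ x, W κ x ∂κ := by
  have key : ∀ᵐ x ∂κ, Spec (comp κ x) (W κ x) ∧ ∀ d, Far (comp κ x) d → d ≤ W κ x := by
    filter_upwards [comp_mp κ hS, h0] with x hx h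
    have hP : IsProbabilityMeasure (comp κ x) := by unfold comp; infer_instance
    have h1 := spec_of hx (h hx)
    have h2 := W_eq κ (sq_nonneg _) h1
    rw [h2]
    exact ⟨h1, fun d hd => far_cp hx hd⟩
  refine ⟨key.mono fun x hx => hx.1, fun c G hGm hG hc hF => hc.trans ?_⟩
  refine integral_mono_ae ?_ ?_ ?_
  · refine Integrable.of_bound (C := 1) hGm.aestronglyMeasurable
      (Eventually.of_forall fun x => ?_)
    rw [Real.norm_eq_abs, abs_of_nonneg (hG x).1]
    exact (hG x).2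
  · refine Integrable.of_bound (C := 1) (W_meas κ).aestronglyMeasurable
      (Eventually.of_forall fun x => ?_)
    rw [Real.norm_eq_abs, abs_of_nonneg (W_mem κ x).1]
    exact (W_mem κ x).2
  · filter_upwards [key, hF] with x h1 h2
    exact h1.2 _ h2

end

end Pool.Agent.H24.WN
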