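import Pool.Agent.H24.WN.Cls
import Pool.Agent.H92.WN.FNR
import Pool.Agent.H83.RC.All

/-!
# White noise (MP_c59857_nt): all real multiplicative functions
-/

set_option autoImplicit false

open MeasureTheory ProbabilityTheory Filter Topology Finset

namespace Pool.Agent.H24.WN

open Pool.Agent.H89.MT (I1 X)
open Pool.Agent.H24.EG
open Pool.Agent.H24.WT (QGW qgw_mp)

/-- the finite form for real multiplicative functions of absolute value near one at the primes -/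
theorem finU {f : ℕ → ℝ} (hf : Pool.Agent.H21.WN.RM f) : Pool.Agent.H92.WN.FinU f :=
  Pool.Agent.H92.WN.pf_FNR (Pool.Agent.H92.WN.pf_GLR Pool.Agent.H83.RC.All.aEBR)
    Pool.Agent.H6.TP.Es.tQSU f hf

/-- `1 - x²` and `1 - |x|` are comparable -/
theorem summ_abs (u : ℕ → I1)
    (hs : Summable (fun p : {p : ℕ // p.Prime} => (1 - (u p : ℝ) ^ 2) / (p : ℝ))) :
    Summable fun p : Nat.Primes => (1 - |(u (p : ℕ) : ℝ)|) / ((p : ℕ) : ℝ) := by
  refine Summable.of_nonneg_of_le (fun p => ?_) (fun p => ?_) hs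
  · exact div_nonneg (sub_nonneg.2 (abs_le.2 (u p).2)) (Nat.cast_nonneg _)
  · refine div_le_div_of_nonneg_right ?_ (Nat.cast_nonneg _)
    have h1 : |(u (p : ℕ) : ℝ)| ≤ 1 := abs_le.2 (u p).2
    have h2 := abs_nonneg (u (p : ℕ) : ℝ)
    rw [← sq_abs]
    nlinarith

/-- **White noise** for multiplicative functions -/
theorem white_mult (u : ℕ → I1) (hu : ∀ m n : ℕ, m.Coprime n → (u (m * n) : ℝ) = u m * u n)
    (hs : Summable (fun p : {p : ℕ // p.Prime} => (1 - (u p : ℝ) ^ 2) / (p : ℝ)))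
    (κ : Measure X) [IsProbabilityMeasure κ] (hκ : QGW u κ) :
    (∀ᵐ x ∂κ, Spec (comp κ x) (W κ x)) ∧
    ∀ (c : ℝ) (G : X → ℝ), Measurable G → (∀ x, 0 ≤ G x ∧ G x ≤ 1) → c ≤ ∫ x, G x ∂κ →
      (∀ᵐ x ∂κ, Far (comp κ x) (G x)) → c ≤ ∫ x, W κ x ∂κ :=
  white_of hκ (finU ⟨fun n => abs_le.2 (u n).2, fun m n _ _ h => hu m n h, summ_abs u hs⟩)

end Pool.Agent.H24.WN
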