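import Pool.Agent.H24.WN.Fin
import Pool.Agent.H24.GG.Both
import Pool.Agent.H3.GW.Fin

/-!
# White noise (MP_c59857_nt): the lower bound for the class of the Möbius function
-/

set_option autoImplicit false

open MeasureTheory ProbabilityTheory Filter Topology Finset
open scoped ENNReal

namespace Pool.Agent.H24.WN

open Pool.Agent.H89.MT (I1 X)
open Pool.Agent.H83.W (S S_cont)
open Pool.Agent.H24.EG
open Pool.Agent.H24.WT (QGW qgw_mp)

theorem prod_mult (f : ℕ → ℝ) (hm : ∀ m n : ℕ, m.Coprime n → f (m * n) = f m * f n)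
    (h1 : f 1 = 1) (n : ℕ) (hn : Squarefree n) : f n = ∏ p ∈ n.primeFactors, f p := by
  let g : ArithmeticFunction ℝ := ⟨fun n => if n = 0 then 0 else f n, if_pos rfl⟩
  have hg : g.IsMultiplicative := by
    refine ⟨?_, fun {m n} hmn => ?_⟩
    · show (if (1 : ℕ) = 0 then 0 else f 1) = 1
      rw [if_neg one_ne_zero, h1]
    · show (if m * n = 0 then 0 else f (m * n)) =
        (if m = 0 then 0 else f m) * (if n = 0 then 0 else f n)
      by_cases hm0 : m = 0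
      · simp [hm0]
      · by_cases hn0 : n = 0
        · simp [hn0]
        · rw [if_neg (mul_ne_zero hm0 hn0), if_neg hm0, if_neg hn0, hm m n hmn]
  have h2 := hg.map_prod_of_subset_primeFactors n n.primeFactors (Finset.Subset.refl _)
  rw [Nat.prod_primeFactors_of_squarefree hn] at h2
  have h3 : g n = f n := if_neg hn.ne_zero
  rw [h3] at h2
  rw [h2]
  refine Finset.prod_congr rfl fun p hp => ?_
  exact if_neg (Nat.prime_of_mem_primeFactors hp).ne_zero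

/-- the lower bound for the distance to the eigenfunctions -/
theorem far_mult (q : ℕ) [NeZero q] : ∃ c : ℝ, 0 < c ∧ ∀ u : ℕ → I1,
    (∀ m n : ℕ, m.Coprime n → (u (m * n) : ℝ) = u m * u n) →
    (∃ χ : DirichletCharacter ℂ q, ∀ p : ℕ, p.Prime → ((u p : ℝ) : ℂ) = -χ p) →
    ∀ (κ : Measure X) [IsProbabilityMeasure κ], QGW u κ →
    ∃ G : X → ℝ, Measurable G ∧ (∀ x, 0 ≤ G x ∧ G x ≤ 1) ∧ c ≤ ∫ x, G x ∂κ ∧
      ∀ᵐ x ∂κ, Far (comp κ x) (G x) := by
  obtain ⟨c, K, hc, h⟩ :=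
    Pool.Agent.H24.WT.gh0W Pool.Agent.H3.GW.Fin.gh0w q 0 (fun _ => 0) (by simp)
  refine ⟨c, hc, fun u hm hχ κ _ hκ => ?_⟩
  obtain ⟨χ, hχ⟩ := hχ
  have h1 : (u 1 : ℝ) = 1 := by
    obtain ⟨p, hp, hpq⟩ := Nat.exists_infinite_primes (q + 1)
    have hcop : Nat.Coprime p q := by
      rw [hpq.coprime_iff_not_dvd]
      intro hd
      have := Nat.le_of_dvd (Nat.pos_of_ne_zero (NeZero.ne q)) hd
      omega
    have hu : IsUnit ((p : ℕ) : ZMod q) := (ZMod.isUnit_iff_coprime p q).2 hcop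
    have h2 : ((u p : ℝ) : ℂ) ≠ 0 := by
      rw [hχ p hpq, neg_ne_zero]
      exact (hu.map χ).ne_zero
    have h3 : (u p : ℝ) ≠ 0 := fun h0 => h2 (by rw [h0, Complex.ofReal_zero])
    have h4 := hm 1 p (Nat.coprime_one_left p)
    rw [one_mul] at h4
    exact mul_right_cancel₀ h3 (by rw [one_mul]; exact h4.symm)
  have hG : Pool.Agent.H24.WT.GHw c (fun n => ((u n : ℝ) : ℂ)) := by
    intro R
    obtain ⟨H₀, h⟩ := h R
    refine ⟨H₀, K, fun H Y N hH hY hYN hK hb b β hbb => ?_⟩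
    refine h H Y N hH hY hYN hK hb χ 0 (fun n => ((u n : ℝ) : ℂ)) (by simp) (fun n => ?_)
      (fun n hn => ?_) (fun p hp => ?_) b β hbb
    · rw [Complex.norm_real, Real.norm_eq_abs]
      exact abs_le.2 (u n).2
    · show ((u n : ℝ) : ℂ) = ∏ p ∈ n.primeFactors, ((u p : ℝ) : ℂ)
      rw [prod_mult (fun n => (u n : ℝ)) hm h1 n hn]
      push_cast
      rfl
    · show ‖((u p : ℝ) : ℂ) + χ (p : ZMod q) * (p : ℂ) ^ (((0 : ℝ) : ℂ) * Complex.I)‖ ≤ 0
      rw [hχ p hp]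
      simp
  exact Pool.Agent.H24.WT.furw_of _ hG u (fun _ _ => rfl) κ hκ

/-- for `u p = - χ p` the sum over the primes is finite -/
theorem summ_chi {q : ℕ} [NeZero q] (u : ℕ → I1)
    (hχ : ∃ χ : DirichletCharacter ℂ q, ∀ p : ℕ, p.Prime → ((u p : ℝ) : ℂ) = -χ p) :
    Summable (fun p : {p : ℕ // p.Prime} => (1 - (u p : ℝ) ^ 2) / (p : ℝ)) := by
  obtain ⟨χ, hχ⟩ := hχ
  refine summable_of_ne_finset_zero (s := (q.primeFactors.subtype _)) fun p hp => ?_
  have hpq : ¬ (p : ℕ) ∣ q := by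
    intro hd
    apply hp
    rw [Finset.mem_subtype]
    exact Nat.mem_primeFactors.2 ⟨p.2, hd, NeZero.ne q⟩
  have hcop : Nat.Coprime p q := (p.2.coprime_iff_not_dvd).2 hpq
  have hu : IsUnit ((p : ℕ) : ZMod q) := (ZMod.isUnit_iff_coprime p q).2 hcop
  have h1 : ‖((u p : ℝ) : ℂ)‖ = 1 := by
    rw [hχ p p.2, norm_neg]
    obtain ⟨v, hv⟩ := hu
    rw [← hv]
    exact χ.unit_norm_eq_one v
  rw [Complex.norm_real, Real.norm_eq_abs] at h1
  rw [← sq_abs, h1]
  simp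

end Pool.Agent.H24.WN
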