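import Mathlib
import Pool.Agent.H6.N4D.Defs

/-!
# The discrete part of a vector for an isometry of a Hilbert space (MP_c59857_nt)

`v = ∑ (projections onto the eigenspaces) + u`, where `u` is orthogonal to all eigenvectors.
-/

set_option autoImplicit false

namespace Pool.Agent.H24.WN

open Finset Pool.Agent.H6.N4D

variable {E : Type*} [NormedAddCommGroup E] [InnerProductSpace ℂ E] [CompleteSpace E]

/-- the eigenspaces -/
def eig (U : E →L[ℂ] E) (z : Circle) : Submodule ℂ E :=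
  LinearMap.ker (U - (z : ℂ) • ContinuousLinearMap.id ℂ E).toLinearMap

omit [CompleteSpace E] in
theorem mem_eig {U : E →L[ℂ] E} {z : Circle} {w : E} : w ∈ eig U z ↔ U w = (z : ℂ) • w := by
  unfold eig
  rw [LinearMap.mem_ker]
  simp [sub_eq_zero]

omit [CompleteSpace E] in
theorem eig_closed (U : E →L[ℂ] E) (z : Circle) : IsClosed (eig U z : Set E) :=
  ContinuousLinearMap.isClosed_ker (U - (z : ℂ) • ContinuousLinearMap.id ℂ E)

instance (U : E →L[ℂ] E) (z : Circle) : CompleteSpace (eig U z) :=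
  (eig_closed U z).completeSpace_coe

omit [CompleteSpace E] in
theorem inner_U {U : E →L[ℂ] E} (hU : ∀ v, ‖U v‖ = ‖v‖) (x y : E) :
    inner ℂ (U x) (U y) = inner ℂ x y := by
  let V : E →ₗᵢ[ℂ] E := ⟨U.toLinearMap, hU⟩
  exact V.inner_map_map x y

omit [CompleteSpace E] in
theorem inner_it {U : E →L[ℂ] E} (hU : ∀ v, ‖U v‖ = ‖v‖) (h : ℕ) (x y : E) :
    inner ℂ (U^[h] x) (U^[h] y) = inner ℂ x y := by
  induction h with
  | zero => rfl
  | succ h ih => rw [Function.iterate_succ_apply', Function.iterate_succ_apply', inner_U hU, ih]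

omit [CompleteSpace E] in
theorem it_eig {U : E →L[ℂ] E} {z : Circle} {w : E} (hw : w ∈ eig U z) (h : ℕ) :
    U^[h] w = ((z : ℂ) ^ h) • w := by
  induction h with
  | zero => simp
  | succ h ih => rw [Function.iterate_succ_apply', ih, map_smul, mem_eig.1 hw, smul_smul, pow_succ]

omit [CompleteSpace E] in
theorem orth_eig {U : E →L[ℂ] E} (hU : ∀ v, ‖U v‖ = ‖v‖) :
    OrthogonalFamily ℂ (fun z : Circle => eig U z) fun z => (eig U z).subtypeₗᵢ := by
  intro z z' hz x y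
  have hx := mem_eig.1 x.2
  have hy := mem_eig.1 y.2
  have h1 := inner_U hU (x : E) (y : E)
  rw [hx, hy, inner_smul_left, inner_smul_right, ← mul_assoc] at h1
  have h2 : (starRingEnd ℂ) (z : ℂ) * (z' : ℂ) ≠ 1 := by
    intro h
    apply hz
    have h3 : (z : ℂ) * ((starRingEnd ℂ) (z : ℂ) * (z' : ℂ)) = z := by rw [h, mul_one]
    rw [← mul_assoc, Complex.mul_conj, Circle.normSq_coe, Complex.ofReal_one, one_mul] at h3
    exact Circle.ext h3.symm
  have h4 : ((starRingEnd ℂ) (z : ℂ) * (z' : ℂ) - 1) * inner ℂ (x : E) (y : E) = 0 := by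
    rw [sub_mul, h1, one_mul, sub_self]
  rcases mul_eq_zero.1 h4 with h5 | h5
  · exact absurd (sub_eq_zero.1 h5) h2
  · exact h5

/-- the projection onto an eigenspace -/
noncomputable def pe (U : E →L[ℂ] E) (v : E) (z : Circle) : E := (eig U z).starProjection v

theorem pe_mem (U : E →L[ℂ] E) (v : E) (z : Circle) : pe U v z ∈ eig U z := by
  unfold pe
  rw [Submodule.starProjection_apply]
  exact Submodule.coe_mem _

theorem pe_inner (U : E →L[ℂ] E) (v : E) (z : Circle) {w : E} (hw : w ∈ eig U z) :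
    inner ℂ w (v - pe U v z) = 0 :=
  (Submodule.mem_orthogonal _ _).1 ((eig U z).sub_starProjection_mem_orthogonal v) w hw

theorem pe_inner' (U : E →L[ℂ] E) (v : E) (z : Circle) {w : E} (hw : w ∈ eig U z) :
    inner ℂ w v = inner ℂ w (pe U v z) := by
  rw [← sub_eq_zero, ← inner_sub_right]
  exact pe_inner U v z hw

theorem norm_sum_pe {U : E →L[ℂ] E} (hU : ∀ v, ‖U v‖ = ‖v‖) (v : E) (s : Finset Circle) :
    ‖∑ z ∈ s, pe U v z‖ ^ 2 = ∑ z ∈ s, ‖pe U v z‖ ^ 2 :=
  (orth_eig hU).norm_sum (fun z => ⟨pe U v z, pe_mem U v z⟩) s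

theorem re_inner_sum_pe (U : E →L[ℂ] E) (v : E) (s : Finset Circle) :
    inner ℂ (∑ z ∈ s, pe U v z) v = ((∑ z ∈ s, ‖pe U v z‖ ^ 2 : ℝ) : ℂ) := by
  rw [sum_inner]
  push_cast
  refine sum_congr rfl fun z _ => ?_
  rw [pe_inner' U v z (pe_mem U v z), inner_self_eq_norm_sq_to_K]
  simp

/-- Bessel's inequality -/
theorem bessel {U : E →L[ℂ] E} (hU : ∀ v, ‖U v‖ = ‖v‖) (v : E) (s : Finset Circle) :
    ∑ z ∈ s, ‖pe U v z‖ ^ 2 ≤ ‖v‖ ^ 2 := by
  have h1 := norm_sum_pe hU v s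
  have h2 := re_inner_sum_pe U v s
  have h3 := norm_inner_le_norm (𝕜 := ℂ) (∑ z ∈ s, pe U v z) v
  rw [h2, Complex.norm_real, Real.norm_eq_abs,
    abs_of_nonneg (sum_nonneg fun _ _ => sq_nonneg _), ← h1] at h3
  rw [← h1]
  obtain ⟨a, ha⟩ : ∃ a : ℝ, a = ‖∑ z ∈ s, pe U v z‖ := ⟨_, rfl⟩
  rw [← ha] at h3 ⊢
  have ha0 : 0 ≤ a := by rw [ha]; exact norm_nonneg _
  have hv := norm_nonneg v
  rcases ha0.eq_or_lt with h0 | h0
  · rw [← h0]
    nlinarith [sq_nonneg ‖v‖]
  · have h4 : a ≤ ‖v‖ := by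
      by_contra hc
      rw [not_le] at hc
      nlinarith
    exact pow_le_pow_left₀ ha0 h4 2

theorem summ_sq {U : E →L[ℂ] E} (hU : ∀ v, ‖U v‖ = ‖v‖) (v : E) :
    Summable fun z : Circle => ‖pe U v z‖ ^ 2 :=
  summable_of_sum_le (fun _ => sq_nonneg _) (bessel hU v)

theorem summ_pe {U : E →L[ℂ] E} (hU : ∀ v, ‖U v‖ = ‖v‖) (v : E) :
    Summable fun z : Circle => pe U v z :=
  ((orth_eig hU).summable_iff_norm_sq_summable (fun z => ⟨pe U v z, pe_mem U v z⟩)).2
    (summ_sq hU v)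

/-- the discrete part -/
noncomputable def dp (U : E →L[ℂ] E) (v : E) : E := ∑' z : Circle, pe U v z

/-- the continuous part -/
noncomputable def cp (U : E →L[ℂ] E) (v : E) : E := v - dp U v

theorem has_dp {U : E →L[ℂ] E} (hU : ∀ v, ‖U v‖ = ‖v‖) (v : E) :
    HasSum (fun z : Circle => pe U v z) (dp U v) := (summ_pe hU v).hasSum

theorem has_inner {U : E →L[ℂ] E} (hU : ∀ v, ‖U v‖ = ‖v‖) (v w : E) :
    HasSum (fun z : Circle => inner ℂ w (pe U v z)) (inner ℂ w (dp U v)) :=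
  (has_dp hU v).mapL (innerSL ℂ w)

theorem eig_dp {U : E →L[ℂ] E} (hU : ∀ v, ‖U v‖ = ‖v‖) (v : E) {z : Circle} {w : E}
    (hw : w ∈ eig U z) : inner ℂ w (dp U v) = inner ℂ w (pe U v z) := by
  have h1 := has_inner hU v w
  have h2 : HasSum (fun z' : Circle => inner ℂ w (pe U v z')) (inner ℂ w (pe U v z)) := by
    refine hasSum_single z fun z' hz' => ?_
    exact orth_eig hU (Ne.symm hz') ⟨w, hw⟩ ⟨pe U v z', pe_mem U v z'⟩
  exact h1.unique h2

/-- the continuous part is orthogonal to the eigenvectors -/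
theorem cp_orth {U : E →L[ℂ] E} (hU : ∀ v, ‖U v‖ = ‖v‖) (v : E) {z : Circle} {w : E}
    (hw : w ∈ eig U z) : inner ℂ w (cp U v) = 0 := by
  unfold cp
  rw [inner_sub_right, eig_dp hU v hw, pe_inner' U v z hw, sub_self]

theorem has_it {U : E →L[ℂ] E} (hU : ∀ v, ‖U v‖ = ‖v‖) (v : E) (h : ℕ) :
    HasSum (fun z : Circle => ((z : ℂ) ^ h) • pe U v z) (U^[h] (dp U v)) := by
  induction h with
  | zero => simpa using has_dp hU v
  | succ h ih =>
    have h1 := ih.mapL U
    rw [← Function.iterate_succ_apply' U] at h1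
    have h2 : (fun z : Circle => U (((z : ℂ) ^ h) • pe U v z)) =
        fun z : Circle => ((z : ℂ) ^ (h + 1)) • pe U v z := by
      funext z
      rw [map_smul, mem_eig.1 (pe_mem U v z), smul_smul, pow_succ]
    rw [h2] at h1
    exact h1

omit [CompleteSpace E] in
theorem it_add (U : E →L[ℂ] E) (h : ℕ) (x y : E) : U^[h] (x + y) = U^[h] x + U^[h] y := by
  induction h with
  | zero => rfl
  | succ h ih => simp only [Function.iterate_succ_apply', ih, map_add]

theorem pe_dp {U : E →L[ℂ] E} (hU : ∀ v, ‖U v‖ = ‖v‖) (v : E) (z : Circle) :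
    inner ℂ (dp U v) (pe U v z) = ((‖pe U v z‖ ^ 2 : ℝ) : ℂ) := by
  rw [← inner_conj_symm, eig_dp hU v (pe_mem U v z), inner_self_eq_norm_sq_to_K]
  simp

theorem pe_cp {U : E →L[ℂ] E} (hU : ∀ v, ‖U v‖ = ‖v‖) (v : E) (z : Circle) :
    inner ℂ (cp U v) (pe U v z) = 0 := by
  rw [← inner_conj_symm, cp_orth hU v (pe_mem U v z), map_zero]

theorem dd {U : E →L[ℂ] E} (hU : ∀ v, ‖U v‖ = ‖v‖) (v : E) (h : ℕ) :
    HasSum (fun z : Circle => ((‖pe U v z‖ ^ 2 : ℝ) : ℂ) * (z : ℂ) ^ h)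
      (inner ℂ (dp U v) (U^[h] (dp U v))) := by
  have h1 := (has_it hU v h).mapL (innerSL ℂ (dp U v))
  have h2 : (fun z : Circle => innerSL ℂ (dp U v) (((z : ℂ) ^ h) • pe U v z)) =
      fun z : Circle => ((‖pe U v z‖ ^ 2 : ℝ) : ℂ) * (z : ℂ) ^ h := by
    funext z
    rw [innerSL_apply_apply, inner_smul_right, pe_dp hU v z, mul_comm]
  rw [h2] at h1
  exact h1

theorem cd {U : E →L[ℂ] E} (hU : ∀ v, ‖U v‖ = ‖v‖) (v : E) (h : ℕ) :
    inner ℂ (cp U v) (U^[h] (dp U v)) = 0 := by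
  have h1 := (has_it hU v h).mapL (innerSL ℂ (cp U v))
  have h2 : (fun z : Circle => innerSL ℂ (cp U v) (((z : ℂ) ^ h) • pe U v z)) =
      fun _ : Circle => (0 : ℂ) := by
    funext z
    rw [innerSL_apply_apply, inner_smul_right, pe_cp hU v z, mul_zero]
  rw [h2] at h1
  exact h1.unique hasSum_zero

theorem dc {U : E →L[ℂ] E} (hU : ∀ v, ‖U v‖ = ‖v‖) (v : E) (h : ℕ) :
    inner ℂ (dp U v) (U^[h] (cp U v)) = 0 := by
  rw [← inner_conj_symm]
  have h1 := has_inner hU v (U^[h] (cp U v))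
  have h2 : (fun z : Circle => inner ℂ (U^[h] (cp U v)) (pe U v z)) =
      fun _ : Circle => (0 : ℂ) := by
    funext z
    have h3 := inner_it hU h (cp U v) (pe U v z)
    rw [it_eig (pe_mem U v z), inner_smul_right, pe_cp hU v z] at h3
    rcases mul_eq_zero.1 h3 with h4 | h4
    · exact absurd h4 (pow_ne_zero h (Circle.coe_ne_zero z))
    · exact h4
  rw [h2] at h1
  rw [h1.unique hasSum_zero, map_zero]

theorem dec {U : E →L[ℂ] E} (hU : ∀ v, ‖U v‖ = ‖v‖) (v : E) (h : ℕ) :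
    HasSum (fun z : Circle => ((‖pe U v z‖ ^ 2 : ℝ) : ℂ) * (z : ℂ) ^ h)
      (inner ℂ v (U^[h] v) - inner ℂ (cp U v) (U^[h] (cp U v))) := by
  have h1 : v = dp U v + cp U v := by unfold cp; abel
  have h2 : inner ℂ v (U^[h] v) - inner ℂ (cp U v) (U^[h] (cp U v)) =
      inner ℂ (dp U v) (U^[h] (dp U v)) := by
    have h3 : inner ℂ v (U^[h] v) =
        inner ℂ (dp U v + cp U v) (U^[h] (dp U v + cp U v)) := by rw [← h1]
    rw [h3, it_add, inner_add_left, inner_add_right, inner_add_right, cd hU, dc hU]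
    ring
  rw [h2]
  exact dd hU v h

/-- the angle of a point of the circle -/
noncomputable def an (z : Circle) : ℝ := Complex.arg (z : ℂ) / (2 * Real.pi)

theorem ee_an (z : Circle) : ee (an z) = (z : ℂ) := by
  unfold ee an
  have h1 : 2 * Real.pi * (Complex.arg (z : ℂ) / (2 * Real.pi)) = Complex.arg (z : ℂ) :=
    mul_div_cancel₀ _ (by positivity)
  rw [h1]
  have h2 := Complex.norm_mul_exp_arg_mul_I (z : ℂ)
  rwa [Circle.norm_coe, Complex.ofReal_one, one_mul] at h2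

/-- the finite sums of eigenvectors approximate the discrete part -/
theorem le_cp {U : E →L[ℂ] E} (hU : ∀ v, ‖U v‖ = ‖v‖) (v : E) {d : ℝ}
    (hd : ∀ (k : ℕ) (θ : ℕ → ℝ) (w : ℕ → E), (∀ i, U (w i) = ee (θ i) • w i) →
      d ≤ ‖v - ∑ i ∈ range k, w i‖ ^ 2) : d ≤ ‖cp U v‖ ^ 2 := by
  have h1 : Filter.Tendsto (fun s : Finset Circle => ‖v - ∑ z ∈ s, pe U v z‖ ^ 2) Filter.atTop
      (nhds (‖cp U v‖ ^ 2)) := by
    have := has_dp hU v
    unfold HasSum at this
    rw [SummationFilter.unconditional_filter] at this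
    exact ((this.const_sub v).norm).pow 2
  refine ge_of_tendsto' h1 fun s => ?_
  have e := s.equivFin
  have h2 := hd s.card (fun i => if hi : i < s.card then an (e.symm ⟨i, hi⟩ : Circle) else 0)
    (fun i => if hi : i < s.card then pe U v (e.symm ⟨i, hi⟩ : Circle) else 0) (fun i => by
      by_cases hi : i < s.card
      · simp only [dif_pos hi]
        rw [mem_eig.1 (pe_mem U v _), ee_an]
      · simp only [dif_neg hi, map_zero, smul_zero])
  refine h2.trans (le_of_eq ?_)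
  congr 3
  rw [sum_range]
  have h3 : ∀ i : Fin s.card, (if hi : (i : ℕ) < s.card then
      pe U v (e.symm ⟨i, hi⟩ : Circle) else 0) = pe U v (e.symm i : Circle) := by
    intro i
    rw [dif_pos i.2]
  rw [Finset.sum_congr rfl fun i _ => h3 i]
  rw [Fintype.sum_equiv e.symm (fun i => pe U v (e.symm i : Circle))
    (fun z : s => pe U v (z : Circle)) (fun _ => rfl)]
  exact Finset.sum_coe_sort s (fun z => pe U v z)

theorem ee_zero : ee 0 = 1 := by
  unfold ee
  simp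

theorem ee_mul_nat (h : ℕ) (x : ℝ) : ee (h * x) = ee x ^ h := by
  unfold ee
  rw [← Complex.exp_nat_mul]
  congr 1
  push_cast
  ring

/-- enumeration of the frequencies -/
theorem enum (B : Circle → ℝ) (hB0 : ∀ z, 0 ≤ B z) (hB : Summable B) :
    ∃ b θ : ℕ → ℝ, (∀ j, 0 ≤ b j) ∧ Summable b ∧ ∀ (h : ℕ) (a : ℂ),
      HasSum (fun z : Circle => ((B z : ℝ) : ℂ) * (z : ℂ) ^ h) a →
      HasSum (fun j : ℕ => ((b j : ℝ) : ℂ) * ee (h * θ j)) a := by
  have hc : (Function.support B).Countable := hB.countable_support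
  obtain ⟨s, hs⟩ : ∃ s : Set Circle, s = Function.support B := ⟨_, rfl⟩
  rw [← hs] at hc
  have := hc.toEncodable
  let g : s → ℕ := Encodable.encode
  have hg : Function.Injective g := Encodable.encode_injective
  refine ⟨Function.extend g (fun z => B z) 0, Function.extend g (fun z => an z) 0, ?_, ?_, ?_⟩
  · intro j
    by_cases hj : ∃ z, g z = j
    · obtain ⟨z, rfl⟩ := hj
      rw [hg.extend_apply]
      exact hB0 _
    · rw [Function.extend_apply' _ _ _ hj]
      exact le_rfl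
  · rw [summable_extend_zero hg]
    exact hB.comp_injective Subtype.val_injective
  · intro h a ha
    have h1 : HasSum (fun z : s => ((B z : ℝ) : ℂ) * ((z : Circle) : ℂ) ^ h) a := by
      refine (hasSum_subtype_iff_of_support_subset (f := fun z : Circle =>
        ((B z : ℝ) : ℂ) * (z : ℂ) ^ h) (s := s) ?_).2 ha
      intro z hz
      rw [hs, Function.mem_support]
      rw [Function.mem_support] at hz
      intro h0
      apply hz
      rw [h0, Complex.ofReal_zero, zero_mul]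
    rw [← hasSum_extend_zero hg] at h1
    have h2 : (fun j : ℕ => ((Function.extend g (fun z : s => B z) 0 j : ℝ) : ℂ) *
        ee (h * Function.extend g (fun z : s => an z) 0 j)) =
        Function.extend g (fun z : s => ((B z : ℝ) : ℂ) * ((z : Circle) : ℂ) ^ h) 0 := by
      funext j
      by_cases hj : ∃ z, g z = j
      · obtain ⟨z, rfl⟩ := hj
        rw [hg.extend_apply, hg.extend_apply, hg.extend_apply]
        congr 1
        rw [ee_mul_nat, ee_an]
      · rw [Function.extend_apply' _ _ _ hj, Function.extend_apply' _ _ _ hj,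
          Function.extend_apply' _ _ _ hj]
        simp
    rw [h2]
    exact h1

/-- **The discrete part of a vector**: `v` is the sum of its projections onto the eigenspaces and
of a vector `u` orthogonal to all eigenvectors -/
theorem com (U : E →L[ℂ] E) (hU : ∀ v, ‖U v‖ = ‖v‖) (v : E) :
    (∀ (z : ℂ) (w : E), ‖z‖ = 1 → U w = z • w → inner ℂ w (cp U v) = 0) ∧
    (∃ b θ : ℕ → ℝ, (∀ j, 0 ≤ b j) ∧ Summable b ∧ ‖v‖ ^ 2 = ∑' j, b j + ‖cp U v‖ ^ 2 ∧
      ∀ h : ℕ, HasSum (fun j : ℕ => ((b j : ℝ) : ℂ) * ee (h * θ j))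
        (inner ℂ v (U^[h] v) - inner ℂ (cp U v) (U^[h] (cp U v)))) ∧
    (∀ d : ℝ, (∀ (k : ℕ) (θ : ℕ → ℝ) (w : ℕ → E), (∀ i, U (w i) = ee (θ i) • w i) →
      d ≤ ‖v - ∑ i ∈ range k, w i‖ ^ 2) → d ≤ ‖cp U v‖ ^ 2) := by
  refine ⟨fun z w hz hw => ?_, ?_, fun d hd => le_cp hU v hd⟩
  · exact cp_orth hU v (z := ⟨z, mem_sphere_zero_iff_norm.2 hz⟩) (mem_eig.2 hw)
  · obtain ⟨b, θ, hb0, hb, h⟩ := enum (fun z => ‖pe U v z‖ ^ 2) (fun _ => sq_nonneg _)
      (summ_sq hU v)
    refine ⟨b, θ, hb0, hb, ?_, fun n => h n _ (dec hU v n)⟩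
    have h0 := h 0 _ (dec hU v 0)
    simp only [Function.iterate_zero, id_eq, Nat.cast_zero, zero_mul, ee_zero, mul_one] at h0
    rw [inner_self_eq_norm_sq_to_K, inner_self_eq_norm_sq_to_K] at h0
    have h1 : HasSum b (‖v‖ ^ 2 - ‖cp U v‖ ^ 2) := by
      rw [← Complex.hasSum_ofReal]
      simpa using h0
    rw [h1.tsum_eq]
    ring

end Pool.Agent.H24.WN
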