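import Pool.Agent.H24.WN.Mass
import Pool.Agent.H28.WN.Near
import Pool.Agent.H28.WN.Glu
import Pool.Agent.H56.WN.PNT
import Pool.Agent.H57.QP.QLB
import Pool.Agent.H93.DE.PIL

/-!
# White noise (MP_c59857_nt): composition
-/

set_option autoImplicit false

open MeasureTheory ProbabilityTheory Filter Topology Finset
open scoped ENNReal

namespace Pool.Agent.H24.WN

open Pool.Agent.H89.MT (I1 X)
open Pool.Agent.H83.W (S S_cont)
open Pool.Agent.H24.EG
open Pool.Agent.H24.WT (QGW qgw_mp)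
open Pool.Agent.H92.WN (FinU)
open Pool.Agent.H28.WN (rx Pnt Nr near)
open Pool.Agent.H6.N4D (ee norm_ee ee_add)

theorem norm_y0 (ν : Measure X) [IsProbabilityMeasure ν] : ‖y0 ν‖ ≤ 1 := by
  have h1 := norm_sq_eq (y0 ν)
  have h2 : ∫ y, ‖y0 ν y‖ ^ 2 ∂ν ≤ 1 := by
    have h3 : ∫ y, ‖y0 ν y‖ ^ 2 ∂ν = ∫ y, ‖((y 0 : ℝ) : ℂ)‖ ^ 2 ∂ν := by
      refine integral_congr_ae ?_
      filter_upwards [coe_y0 ν] with y hy
      rw [hy]
    rw [h3]
    calc ∫ y, ‖((y 0 : ℝ) : ℂ)‖ ^ 2 ∂ν ≤ ∫ _y, (1 : ℝ) ∂ν := by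
          refine integral_mono_of_nonneg (Eventually.of_forall fun y => by positivity)
            (integrable_const _) (Eventually.of_forall fun y => ?_)
          show ‖((y 0 : ℝ) : ℂ)‖ ^ 2 ≤ 1
          rw [Complex.norm_real, Real.norm_eq_abs]
          exact pow_le_one₀ (abs_nonneg _) (abs_le_one y 0)
      _ = 1 := by simp
  rw [← h1] at h2
  have h4 := norm_nonneg (y0 ν)
  nlinarith

theorem rx_eq {κ : Measure X} [IsProbabilityMeasure κ] {x : X}
    [IsProbabilityMeasure (comp κ x)] (hS : MeasurePreserving S (comp κ x) (comp κ x)) (k : ℕ) :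
    rx κ x k = (inner ℂ (y0 (comp κ x)) ((Uc hS)^[k] (y0 (comp κ x)))).re := by
  rw [inner_y0 hS k, Complex.ofReal_re]
  rfl

theorem pnt_rx (κ : Measure X) [IsProbabilityMeasure κ] (hS : MeasurePreserving S κ κ) :
    ∀ᵐ x ∂κ, Pnt (rx κ x) := by
  filter_upwards [comp_mp κ hS] with x hx
  have hP : IsProbabilityMeasure (comp κ x) := by unfold comp; infer_instance
  intro ε hε
  obtain ⟨R₀, h⟩ := Pool.Agent.H56.WN.pnt (Uc hx) (norm_Uc hx) (y0 (comp κ x))
    (norm_y0 (comp κ x)) ε hε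
  refine ⟨R₀, fun R hR H => ?_⟩
  filter_upwards [h R hR H] with w hw
  simp only [rx_eq hx]
  exact hw

theorem near_rx {u : ℕ → I1} {κ : Measure X} [IsProbabilityMeasure κ] (hκ : QGW u κ)
    (hU : FinU fun n => (u n : ℝ)) : ∀ᵐ x ∂κ, Nr (rx κ x) :=
  near hκ hU (Pool.Agent.H57.QP.pf_QLB Pool.Agent.H93.DE.pf_PIL) (pnt_rx κ (qgw_mp hκ))

section

variable {E : Type*} [NormedAddCommGroup E] [InnerProductSpace ℂ E] [CompleteSpace E]

/-- `glu` for a continuous linear map which preserves the norms -/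
theorem gluU (U : E →L[ℂ] E) (hU : ∀ v, ‖U v‖ = ‖v‖) (u : E)
    (hu : ∀ (z : ℂ) (v : E), ‖z‖ = 1 → U v = z • v → inner ℂ v u = 0) {r : ℕ → ℝ} {b θ : ℕ → ℝ}
    (hb : ∀ j, 0 ≤ b j) (hs : Summable b)
    (hr : ∀ h : ℕ, HasSum (fun j => b j * Real.cos (2 * Real.pi * θ j * h))
      (r h - (inner ℂ u (U^[h] u)).re))
    (hN : Nr r) : ∀ k : ℕ, 1 ≤ k → (inner ℂ u (U^[k] u)).re = 0 := by
  let V : E →ₗᵢ[ℂ] E := ⟨U.toLinearMap, hU⟩
  have hV : ∀ k : ℕ, (V^[k] : E → E) = U^[k] := fun k => rfl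
  have h1 := Pool.Agent.H28.WN.glu V u (fun v z hz hv => hu z v hz hv) (r := r) (b := b) (θ := θ)
    hb hs (fun k _ => by
      have h1 := (hr k).tsum_eq
      have h2 : ∑' j, b j * Real.cos (2 * Real.pi * (k * θ j)) =
          ∑' j, b j * Real.cos (2 * Real.pi * θ j * k) :=
        tsum_congr fun j => by
          congr 2
          ring
      rw [h2, h1, hV]
      exact (sub_add_cancel _ _).symm) hN
  intro k hk
  have h2 := h1 k hk
  rwa [hV] at h2

end

/-- the translates of the continuous part are orthogonal -/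
theorem orth {u : ℕ → I1} {κ : Measure X} [IsProbabilityMeasure κ] (hκ : QGW u κ)
    (hU : FinU fun n => (u n : ℝ)) :
    ∀ᵐ x ∂κ, ∀ hS : MeasurePreserving S (comp κ x) (comp κ x),
      have : IsProbabilityMeasure (comp κ x) := by unfold comp; infer_instance
      ∀ h : ℕ, 1 ≤ h →
      (inner ℂ (cp (Uc hS) (y0 (comp κ x))) ((Uc hS)^[h] (cp (Uc hS) (y0 (comp κ x))))).re = 0 := by
  filter_upwards [near_rx hκ hU] with x hx hS
  have hP : IsProbabilityMeasure (comp κ x) := by unfold comp; infer_instance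
  obtain ⟨b, θ, hb0, hb, -, h⟩ := lp_com hS
  exact gluU (Uc hS) (norm_Uc hS) (cp (Uc hS) (y0 (comp κ x)))
    (com (Uc hS) (norm_Uc hS) (y0 (comp κ x))).1 (r := rx κ x) hb0 hb h hx

/-- **White noise** for one function with the finite form of the invariance under dilation -/
theorem white_of {u : ℕ → I1} {κ : Measure X} [IsProbabilityMeasure κ] (hκ : QGW u κ)
    (hU : FinU fun n => (u n : ℝ)) :
    (∀ᵐ x ∂κ, Spec (comp κ x) (W κ x)) ∧
    ∀ (c : ℝ) (G : X → ℝ), Measurable G → (∀ x, 0 ≤ G x ∧ G x ≤ 1) → c ≤ ∫ x, G x ∂κ →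
      (∀ᵐ x ∂κ, Far (comp κ x) (G x)) → c ≤ ∫ x, W κ x ∂κ :=
  white κ (qgw_mp hκ) (orth hκ hU)

/-- the trivial case -/
theorem white_zero {κ : Measure X} [IsProbabilityMeasure κ]
    (h0 : ∫ y, (y 0 : ℝ) ^ 2 ∂κ = 0) : ∀ᵐ x ∂κ, Spec (comp κ x) (W κ x) := by
  have h1 : ∀ᵐ x ∂κ, ∫ y, (y 0 : ℝ) ^ 2 ∂comp κ x = 0 := by
    have hm : Measurable fun y : X => (y 0 : ℝ) ^ 2 := (c0r 0).pow_const 2
    have hi : Integrable (fun y : X => (y 0 : ℝ) ^ 2) κ :=
      Integrable.of_bound (C := 1) hm.aestronglyMeasurable (Eventually.of_forall fun y => by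
        rw [Real.norm_eq_abs, abs_pow]
        exact pow_le_one₀ (abs_nonneg _) (abs_le_one y 0))
    have h3 := condExp_ae_eq_integral_condExpKernel (μ := κ) IS_le hi
    have h4 : (fun y : X => (y 0 : ℝ) ^ 2) =ᵐ[κ] 0 :=
      (integral_eq_zero_iff_of_nonneg (fun y => sq_nonneg _) hi).1 h0
    have h5 : κ[(fun y : X => (y 0 : ℝ) ^ 2) | IS] =ᵐ[κ] 0 := by
      have h6 := condExp_congr_ae (m := IS) (μ := κ) h4
      rw [condExp_zero] at h6
      exact h6
    filter_upwards [h3, h5] with x h6 h7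
    have h8 : ∫ y, (y 0 : ℝ) ^ 2 ∂comp κ x = κ[(fun y : X => (y 0 : ℝ) ^ 2) | IS] x := h6.symm
    rw [h8, h7]
    rfl
  filter_upwards [h1] with x hx
  have hP : IsProbabilityMeasure (comp κ x) := by unfold comp; infer_instance
  have hm : Measurable fun y : X => (y 0 : ℝ) ^ 2 := (c0r 0).pow_const 2
  have hi : Integrable (fun y : X => (y 0 : ℝ) ^ 2) (comp κ x) :=
    Integrable.of_bound (C := 1) hm.aestronglyMeasurable (Eventually.of_forall fun y => by
      rw [Real.norm_eq_abs, abs_pow]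
      exact pow_le_one₀ (abs_nonneg _) (abs_le_one y 0))
  have h2 : ∀ᵐ y ∂comp κ x, (y 0 : ℝ) = 0 := by
    have h4 := (integral_eq_zero_iff_of_nonneg (fun y => sq_nonneg _) hi).1 hx
    filter_upwards [h4] with y hy
    exact pow_eq_zero_iff (two_ne_zero) |>.1 hy
  have h3 : Spec (comp κ x) 0 := by
    refine ⟨fun _ => 0, fun _ => 0, fun _ => le_rfl, summable_zero, ?_, fun h _ => ?_⟩
    · rw [hx, tsum_zero, add_zero]
    · simp only [zero_mul, tsum_zero]
      rw [integral_eq_zero_of_ae]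
      filter_upwards [h2] with y hy
      rw [hy, zero_mul]
      rfl
  rw [W_eq κ le_rfl h3]
  exact h3

end Pool.Agent.H24.WN
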