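import Pool.Agent.H24.WN.Com
import Pool.Agent.H24.EG.Comp

/-!
# The zeroth coordinate in `L²` of an invariant measure (MP_c59857_nt)
-/

set_option autoImplicit false

open MeasureTheory ProbabilityTheory Filter Topology Finset
open scoped ENNReal

namespace Pool.Agent.H24.WN

open Pool.Agent.H89.MT (I1 X)
open Pool.Agent.H83.W (S S_cont)
open Pool.Agent.H24.EG
open Pool.Agent.H6.N4D (ee norm_ee ee_add)

variable {ν : Measure X}

/-- composition with the shift -/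
noncomputable def Uc (hS : MeasurePreserving S ν ν) : Lp ℂ 2 ν →L[ℂ] Lp ℂ 2 ν :=
  (Lp.compMeasurePreservingₗᵢ ℂ S hS).toContinuousLinearMap

theorem norm_Uc (hS : MeasurePreserving S ν ν) (v : Lp ℂ 2 ν) : ‖Uc hS v‖ = ‖v‖ :=
  (Lp.compMeasurePreservingₗᵢ ℂ S hS).norm_map v

theorem coe_Uc (hS : MeasurePreserving S ν ν) (v : Lp ℂ 2 ν) :
    (Uc hS v : X → ℂ) =ᵐ[ν] fun y => v (S y) :=
  Lp.coeFn_compMeasurePreserving v hS

theorem coe_it (hS : MeasurePreserving S ν ν) (v : Lp ℂ 2 ν) (h : ℕ) :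
    ((Uc hS)^[h] v : X → ℂ) =ᵐ[ν] fun y => v (S^[h] y) := by
  induction h with
  | zero => exact Filter.EventuallyEq.rfl
  | succ h ih =>
    rw [Function.iterate_succ_apply']
    refine (coe_Uc hS _).trans ?_
    have h1 := hS.quasiMeasurePreserving.ae_eq_comp ih
    refine h1.trans (Filter.EventuallyEq.of_eq ?_)
    funext y
    show v (S^[h] (S y)) = v (S^[h + 1] y)
    rw [Function.iterate_succ_apply]

theorem c0m (m : ℤ) : Measurable fun y : X => ((y m : ℝ) : ℂ) :=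
  Complex.measurable_ofReal.comp (measurable_subtype_coe.comp (measurable_pi_apply m))

theorem abs_le_one (y : X) (m : ℤ) : |(y m : ℝ)| ≤ 1 := abs_le.2 (y m).2

theorem memLp_c0 [IsProbabilityMeasure ν] (m : ℤ) : MemLp (fun y : X => ((y m : ℝ) : ℂ)) 2 ν := by
  refine MemLp.of_bound (c0m m).aestronglyMeasurable 1 (Eventually.of_forall fun y => ?_)
  rw [Complex.norm_real, Real.norm_eq_abs]
  exact abs_le_one y m

/-- the zeroth coordinate -/
noncomputable def y0 (ν : Measure X) [IsProbabilityMeasure ν] : Lp ℂ 2 ν := (memLp_c0 0).toLp _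

theorem coe_y0 (ν : Measure X) [IsProbabilityMeasure ν] :
    (y0 ν : X → ℂ) =ᵐ[ν] fun y => ((y 0 : ℝ) : ℂ) := MemLp.coeFn_toLp _

variable [IsProbabilityMeasure ν]

theorem coe_it0 (hS : MeasurePreserving S ν ν) (h : ℕ) :
    ((Uc hS)^[h] (y0 ν) : X → ℂ) =ᵐ[ν] fun y => ((y (h : ℤ) : ℝ) : ℂ) := by
  refine (coe_it hS _ h).trans ?_
  have h1 := (hS.iterate h).quasiMeasurePreserving.ae_eq_comp (coe_y0 ν)
  refine h1.trans (Filter.EventuallyEq.of_eq ?_)
  funext y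
  show (((S^[h] y) 0 : ℝ) : ℂ) = _
  rw [iter_S, zero_add]

theorem inner_y0 (hS : MeasurePreserving S ν ν) (h : ℕ) :
    inner ℂ (y0 ν) ((Uc hS)^[h] (y0 ν)) = ((∫ y, (y 0 : ℝ) * (y (h : ℤ) : ℝ) ∂ν : ℝ) : ℂ) := by
  rw [L2.inner_def, ← integral_complex_ofReal]
  refine integral_congr_ae ?_
  filter_upwards [coe_y0 ν, coe_it0 hS h] with y h1 h2
  rw [h1, h2, RCLike.inner_apply, Complex.conj_ofReal]
  push_cast
  ring

/-- the spectral measure of the zeroth coordinate is the sum of a discrete measure and of `w` times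
Lebesgue measure -/
def Spec (ν : Measure X) (w : ℝ) : Prop := ∃ b θ : ℕ → ℝ, (∀ j, 0 ≤ b j) ∧ Summable b ∧
  ∫ y, (y 0 : ℝ) ^ 2 ∂ν = ∑' j, b j + w ∧
  ∀ h : ℕ, 1 ≤ h → ∫ y, (y 0 : ℝ) * (y (h : ℤ) : ℝ) ∂ν =
    ∑' j, b j * Real.cos (2 * Real.pi * θ j * h)

/-- The square of the distance in `L²(ν)` from the coordinate `y 0` to the linear span of the
eigenfunctions of the shift is at least `d`. -/
def Far (ν : Measure X) (d : ℝ) : Prop := ∀ (k : ℕ) (θ : ℕ → ℝ) (F : ℕ → X → ℂ),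
  (∀ i, Measurable (F i) ∧ Integrable (fun y => ‖F i y‖ ^ 2) ν ∧
    ∀ᵐ y ∂ν, F i (S y) = Complex.exp (2 * Real.pi * Complex.I * θ i) * F i y) →
  d ≤ ∫ y, ‖((y 0 : ℝ) : ℂ) - ∑ i ∈ Finset.range k, F i y‖ ^ 2 ∂ν

theorem re_ee (x : ℝ) : (ee x).re = Real.cos (2 * Real.pi * x) := by
  unfold ee
  exact Complex.exp_ofReal_mul_I_re _

/-- decomposition of the correlations -/
theorem lp_com (hS : MeasurePreserving S ν ν) : ∃ b θ : ℕ → ℝ, (∀ j, 0 ≤ b j) ∧ Summable b ∧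
    ∫ y, (y 0 : ℝ) ^ 2 ∂ν = ∑' j, b j + ‖cp (Uc hS) (y0 ν)‖ ^ 2 ∧
    ∀ h : ℕ, HasSum (fun j => b j * Real.cos (2 * Real.pi * θ j * h))
      (∫ y, (y 0 : ℝ) * (y (h : ℤ) : ℝ) ∂ν -
        (inner ℂ (cp (Uc hS) (y0 ν)) ((Uc hS)^[h] (cp (Uc hS) (y0 ν)))).re) := by
  obtain ⟨-, ⟨b, θ, hb0, hb, hn, h⟩, -⟩ := com (Uc hS) (norm_Uc hS) (y0 ν)
  refine ⟨b, θ, hb0, hb, ?_, fun m => ?_⟩
  · rw [← hn]
    have h1 := inner_y0 hS 0
    simp only [Function.iterate_zero, id_eq, Nat.cast_zero] at h1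
    rw [inner_self_eq_norm_sq_to_K] at h1
    have h2 : (∫ y, (y 0 : ℝ) * (y 0 : ℝ) ∂ν : ℝ) = ‖y0 ν‖ ^ 2 := by
      apply Complex.ofReal_injective
      rw [← h1]
      simp
    rw [← h2]
    refine integral_congr_ae (Eventually.of_forall fun y => ?_)
    ring
  · have h1 := (h m).mapL Complex.reCLM
    rw [inner_y0] at h1
    have h2 : (fun j => Complex.reCLM (((b j : ℝ) : ℂ) * ee (m * θ j))) =
        fun j => b j * Real.cos (2 * Real.pi * θ j * m) := by
      funext j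
      rw [Complex.reCLM_apply, Complex.re_ofReal_mul, re_ee]
      congr 2
      ring
    rw [h2] at h1
    simpa using h1

omit [IsProbabilityMeasure ν] in
theorem memLp_int {v : Lp ℂ 2 ν} : Integrable (fun y => ‖v y‖ ^ 2) ν := by
  have h1 := (Lp.memLp v).integrable_norm_pow (by norm_num)
  simpa using h1

omit [IsProbabilityMeasure ν] in
theorem norm_sq_eq (v : Lp ℂ 2 ν) : ‖v‖ ^ 2 = ∫ y, ‖v y‖ ^ 2 ∂ν := by
  have h1 : inner ℂ v v = ((∫ y, ‖v y‖ ^ 2 ∂ν : ℝ) : ℂ) := by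
    rw [L2.inner_def, ← integral_complex_ofReal]
    refine integral_congr_ae (Eventually.of_forall fun y => ?_)
    show inner ℂ (v y) (v y) = _
    rw [inner_self_eq_norm_sq_to_K]
    simp
  rw [inner_self_eq_norm_sq_to_K] at h1
  apply Complex.ofReal_injective
  rw [← h1]
  simp

/-- the distance to the eigenfunctions -/
theorem far_cp (hS : MeasurePreserving S ν ν) {d : ℝ} (hd : Far ν d) :
    d ≤ ‖cp (Uc hS) (y0 ν)‖ ^ 2 := by
  refine le_cp (norm_Uc hS) (y0 ν) fun k θ w hw => ?_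
  refine (hd k θ (fun i => w i) fun i => ⟨(Lp.stronglyMeasurable (w i)).measurable,
    memLp_int, ?_⟩).trans (le_of_eq ?_)
  · have h1 := coe_Uc hS (w i)
    rw [hw i] at h1
    filter_upwards [h1, Lp.coeFn_smul (ee (θ i)) (w i)] with y h1 h2
    rw [← h1, h2, Pi.smul_apply, smul_eq_mul]
    congr 1
    unfold ee
    congr 1
    push_cast
    ring
  · rw [norm_sq_eq]
    refine integral_congr_ae ?_
    have h1 : ∀ k : ℕ, ((∑ i ∈ range k, w i : Lp ℂ 2 ν) : X → ℂ) =ᵐ[ν]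
        fun y => ∑ i ∈ range k, w i y := by
      intro k
      induction k with
      | zero =>
        simp only [range_zero, sum_empty]
        exact Lp.coeFn_zero ℂ 2 ν
      | succ k ih =>
        rw [sum_range_succ]
        filter_upwards [Lp.coeFn_add (∑ i ∈ range k, w i) (w k), ih] with y h1 h2
        rw [h1, Pi.add_apply, h2, sum_range_succ]
    filter_upwards [Lp.coeFn_sub (y0 ν) (∑ i ∈ range k, w i), coe_y0 ν, h1 k] with y h2 h3 h4
    rw [h2, Pi.sub_apply, h3, h4]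

/-- **White noise.** If the translates of the continuous part of the zeroth coordinate are
orthogonal, the spectral measure is discrete plus a multiple of Lebesgue measure. -/
theorem spec_of (hS : MeasurePreserving S ν ν)
    (h0 : ∀ h : ℕ, 1 ≤ h →
      (inner ℂ (cp (Uc hS) (y0 ν)) ((Uc hS)^[h] (cp (Uc hS) (y0 ν)))).re = 0) :
    Spec ν (‖cp (Uc hS) (y0 ν)‖ ^ 2) := by
  obtain ⟨b, θ, hb0, hb, hn, h⟩ := lp_com hS
  refine ⟨b, θ, hb0, hb, hn, fun m hm => ?_⟩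
  have h1 := h m
  rw [h0 m hm, sub_zero] at h1
  exact h1.tsum_eq.symm

end Pool.Agent.H24.WN
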